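import Pool.Agent.H25.CloneMon

set_option autoImplicit false

namespace Pool.Agent.Results.MP_cac0a5_al.Monoid

open Pool.Agent.H25.CloneDefs

/-- `Cl_loc(X)` embeds as a lattice into `Mon_loc(X)`. -/
theorem result (X : Type) [Countable X] [Infinite X] :
    ∃ Φ : ClLoc X → MonLoc X, Function.Injective Φ ∧
      (∀ C D I : ClLoc X, IsGLB {C, D} I → IsGLB {Φ C, Φ D} (Φ I)) ∧
      (∀ C D J : ClLoc X, IsLUB {C, D} J → IsLUB {Φ C, Φ D} (Φ J)) :=
  Pool.Agent.H25.CloneMon.main X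

end Pool.Agent.Results.MP_cac0a5_al.Monoid
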